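import Mathlib

/-!
# Extending a Golomb ruler to a regular family, for `I ≥ 4 J (J - 1) ^ 2` and for `J ≤ 3`
-/

namespace Pool.Agent.Results.MP_61bf50_co.LargeI

open Finset

/-- A finite set of integers whose differences `a - b` with `a ≠ b` are pairwise distinct. -/
def Golomb (A : Finset ℤ) : Prop :=
  ∀ a ∈ A, ∀ b ∈ A, ∀ c ∈ A, ∀ d ∈ A, a ≠ b → a - b = c - d → a = c ∧ b = d

/-- A family of `I` pairwise disjoint `J`-mark Golomb rulers contained in `{1, …, n}`. -/
def DGR (I J n : ℕ) (F : Finset (Finset ℤ)) : Prop :=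
  F.card = I ∧ (∀ A ∈ F, A.card = J ∧ Golomb A ∧ A ⊆ Finset.Icc 1 (n : ℤ)) ∧
    ∀ A ∈ F, ∀ B ∈ F, A ≠ B → Disjoint A B

/-- The least `n` for which such a family of `I` rulers with `J` marks exists in `{1, …, n}`. -/
noncomputable def H (I J : ℕ) : ℕ := sInf {n | ∃ F, DGR I J n F}

/-- Values `y` outside of which `T ∪ {y}` stays a Golomb ruler. -/
def forb (T : Finset ℤ) : Finset ℤ :=
  ((T ×ˢ T) ×ˢ T).image (fun p => p.1.1 + p.1.2 - p.2) ∪
    (T ×ˢ T).image (fun p => (p.1 + p.2) / 2)

lemma forb_card (T : Finset ℤ) : (forb T).card ≤ T.card ^ 3 + T.card ^ 2 := by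
  unfold forb
  refine (card_union_le _ _).trans ?_
  refine Nat.add_le_add (card_image_le.trans ?_) (card_image_le.trans ?_)
  · rw [card_product, card_product]
    apply le_of_eq
    ring
  · rw [card_product]
    apply le_of_eq
    ring

lemma subset_forb (T : Finset ℤ) : T ⊆ forb T := by
  intro x hx
  unfold forb
  rw [mem_union]
  left
  rw [mem_image]
  exact ⟨((x, x), x), by simp [hx], by simp⟩

lemma golomb_insert {T : Finset ℤ} (hT : Golomb T) {y : ℤ} (hy : y ∉ forb T) :
    Golomb (insert y T) := by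
  have h3 : ∀ a ∈ T, ∀ b ∈ T, ∀ c ∈ T, y = a + b - c → False := by
    intro a ha b hb c hc h
    apply hy
    unfold forb
    rw [mem_union]
    left
    rw [mem_image]
    exact ⟨((a, b), c), by simp [ha, hb, hc], h.symm⟩
  have h2 : ∀ a ∈ T, ∀ b ∈ T, 2 * y = a + b → False := by
    intro a ha b hb h
    apply hy
    unfold forb
    rw [mem_union]
    right
    rw [mem_image]
    refine ⟨(a, b), by simp [ha, hb], ?_⟩
    show (a + b) / 2 = y
    omega
  intro p hp q hq r hr s hs hne heq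
  rw [mem_insert] at hp hq hr hs
  rcases hp with hp | hp <;> rcases hq with hq | hq <;> rcases hr with hr | hr <;>
    rcases hs with hs | hs
  all_goals first
    | omega
    | exact hT _ hp _ hq _ hr _ hs hne heq
    | exact (h2 _ hq _ hr (by omega)).elim
    | exact (h2 _ hp _ hs (by omega)).elim
    | exact (h3 _ hq _ hr _ hs (by omega)).elim
    | exact (h3 _ hp _ hs _ hr (by omega)).elim
    | exact (h3 _ hp _ hs _ hq (by omega)).elim
    | exact (h3 _ hr _ hq _ hp (by omega)).elim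

/-- A splitting of `X` into `m` Golomb rulers with `J` marks. -/
def Part (J m : ℕ) (X : Finset ℤ) : Prop :=
  ∃ T : Fin m → Finset ℤ, (∀ i, (T i).card = J ∧ Golomb (T i)) ∧
    (∀ i j, i ≠ j → Disjoint (T i) (T j)) ∧ ∀ x, x ∈ X ↔ ∃ i, x ∈ T i

/-- Adding one new element to each ruler of a family, by Hall's marriage theorem. -/
lemma extend {ι : Type} [Fintype ι] [DecidableEq ι] (m c : ℕ) (hcard : Fintype.card ι = m)
    (S : ι → Finset ℤ) (hcS : ∀ i, (forb (S i)).card ≤ c) (Y : Finset ℤ) (hYc : Y.card = m)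
    (hbad : ∀ y ∈ Y, (univ.filter (fun i => y ∈ forb (S i))).card ≤ m - c) :
    ∃ f : ι → ℤ, Function.Injective f ∧ (∀ i, f i ∈ Y) ∧ (∀ i, f i ∉ forb (S i)) ∧
      univ.image f = Y := by
  let t : ι → Finset ℤ := fun i => Y \ forb (S i)
  have ht : ∀ i, m - c ≤ (t i).card := by
    intro i
    have h1 := Finset.le_card_sdiff (forb (S i)) Y
    have h2 := hcS i
    show m - c ≤ (Y \ forb (S i)).card
    omega
  have hall : ∀ s : Finset ι, s.card ≤ (s.biUnion t).card := by
    intro s
    by_cases hs : s.card ≤ m - c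
    · rcases s.eq_empty_or_nonempty with rfl | ⟨j, hj⟩
      · simp
      · have h1 : t j ⊆ s.biUnion t := fun x hx => mem_biUnion.mpr ⟨_, hj, hx⟩
        have h2 := card_le_card h1
        have h3 := ht j
        omega
    · push Not at hs
      have hY : Y ⊆ s.biUnion t := by
        intro y hy
        have h1 := hbad y hy
        have h2 : (univ.filter (fun i => y ∈ forb (S i))).card < s.card := by omega
        obtain ⟨i, his, hin⟩ := Finset.exists_mem_notMem_of_card_lt_card h2
        rw [mem_filter] at hin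
        refine mem_biUnion.mpr ⟨i, his, mem_sdiff.mpr ⟨hy, fun h => hin ⟨mem_univ i, h⟩⟩⟩
      have h3 := card_le_card hY
      have h4 := card_le_univ s
      omega
  obtain ⟨f, hfinj, hf⟩ := (Finset.all_card_le_biUnion_card_iff_exists_injective t).mp hall
  have hfY : ∀ i, f i ∈ Y := fun i => (mem_sdiff.mp (hf i)).1
  refine ⟨f, hfinj, hfY, fun i => (mem_sdiff.mp (hf i)).2, ?_⟩
  apply eq_of_subset_of_card_le
  · intro x hx
    obtain ⟨i, _, rfl⟩ := mem_image.mp hx
    exact hfY i
  · rw [card_image_of_injective _ hfinj, card_univ, hcard, hYc]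

lemma bad_card {ι : Type} [Fintype ι] [DecidableEq ι] (m c : ℕ) (hcard : Fintype.card ι = m)
    (S : ι → Finset ℤ) (hcS : ∀ i, (forb (S i)).card ≤ c) (hm : 2 * c ≤ m) (W : Finset ℤ) :
    (W.filter (fun y => m - c < (univ.filter (fun i => y ∈ forb (S i))).card)).card ≤ 2 * c := by
  set B := W.filter (fun y => m - c < (univ.filter (fun i => y ∈ forb (S i))).card) with hB
  have h1 : B.card * (m - c + 1) ≤ ∑ y ∈ B, (univ.filter (fun i => y ∈ forb (S i))).card := by
    rw [← smul_eq_mul]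
    apply card_nsmul_le_sum
    intro y hy
    rw [hB, mem_filter] at hy
    exact hy.2
  have h2 : ∑ y ∈ B, (univ.filter (fun i => y ∈ forb (S i))).card =
      ∑ i : ι, (B.filter (fun y => y ∈ forb (S i))).card := by
    simp only [card_filter]
    exact sum_comm
  have h3 : ∑ i : ι, (B.filter (fun y => y ∈ forb (S i))).card ≤ m * c := by
    refine (sum_le_card_nsmul _ _ c ?_).trans ?_
    · intro i _
      refine (card_le_card ?_).trans (hcS i)
      intro y hy
      exact (mem_filter.mp hy).2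
    · rw [card_univ, hcard, smul_eq_mul]
  rw [h2] at h1
  have h4 := h1.trans h3
  by_contra hcon
  push Not at hcon
  obtain ⟨d, rfl⟩ := Nat.exists_eq_add_of_le hm
  have h5 : 2 * c + d - c + 1 = c + d + 1 := by omega
  rw [h5] at h4
  have h6 : (2 * c + 1) * (c + d + 1) ≤ B.card * (c + d + 1) :=
    Nat.mul_le_mul_right _ hcon
  have h7 := h6.trans h4
  nlinarith

/-- `m` disjoint rulers with `j + 1` marks inside `Z`, together covering the set `U`. -/
lemma build (m c : ℕ) (hm : 2 * c ≤ m) (Z U : Finset ℤ) (hUZ : U ⊆ Z) (hU : U.card ≤ m) :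
    ∀ j : ℕ, j ^ 3 + j ^ 2 ≤ c → (j + 1) * m + 2 * c ≤ Z.card →
    ∃ S : Fin m → Finset ℤ, (∀ i, S i ⊆ Z) ∧ (∀ i, (S i).card = j + 1 ∧ Golomb (S i)) ∧
      (∀ i k, i ≠ k → Disjoint (S i) (S k)) ∧ ∀ x ∈ U, ∃ i, x ∈ S i := by
  intro j
  induction j with
  | zero =>
    intro _ hZ
    obtain ⟨W, hUW, hWZ, hWc⟩ := Finset.exists_subsuperset_card_eq hUZ hU (by omega)
    let e := (Finset.equivFinOfCardEq hWc).symm
    refine ⟨fun i => {(e i : ℤ)}, ?_, ?_, ?_, ?_⟩
    · intro i
      rw [singleton_subset_iff]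
      exact hWZ (e i).2
    · intro i
      refine ⟨by simp, ?_⟩
      intro a ha b hb c hc d hd hab
      rw [mem_singleton] at ha hb
      exact (hab (by rw [ha, hb])).elim
    · intro i k hik
      rw [disjoint_singleton]
      intro h
      exact hik (e.injective (Subtype.ext h))
    · intro x hx
      refine ⟨e.symm ⟨x, hUW hx⟩, ?_⟩
      simp
  | succ j ih =>
    intro hj hZ
    have hj' : j ^ 3 + j ^ 2 ≤ c := by
      have : (j + 1) ^ 3 + (j + 1) ^ 2 = j ^ 3 + j ^ 2 + (3 * j ^ 2 + 5 * j + 2) := by ring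
      omega
    have hmul : (j + 1 + 1) * m = (j + 1) * m + m := by ring
    obtain ⟨S, hSZ, hS, hSd, hSU⟩ := ih hj' (by omega)
    have hSc : (univ.biUnion S).card = (j + 1) * m := by
      rw [card_biUnion (fun i _ k _ hik => hSd i k hik), sum_congr rfl (fun i _ => (hS i).1)]
      simp [mul_comm]
    have hSs : univ.biUnion S ⊆ Z := by
      intro x hx
      obtain ⟨i, _, hi⟩ := mem_biUnion.mp hx
      exact hSZ i hi
    have hcS : ∀ i, (forb (S i)).card ≤ c := by
      intro i
      have := forb_card (S i)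
      rw [(hS i).1] at this
      omega
    have hcardF : Fintype.card (Fin m) = m := Fintype.card_fin m
    have hB := bad_card m c hcardF S hcS hm (Z \ univ.biUnion S)
    set B := (Z \ univ.biUnion S).filter
      (fun y => m - c < (univ.filter (fun i => y ∈ forb (S i))).card) with hBdef
    have hrem : (Z \ univ.biUnion S).card = Z.card - (j + 1) * m := by
      rw [card_sdiff_of_subset hSs, hSc]
    have hbig : m ≤ ((Z \ univ.biUnion S) \ B).card := by
      have := Finset.le_card_sdiff B (Z \ univ.biUnion S)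
      omega
    obtain ⟨Y, hYs, hYc⟩ := Finset.exists_subset_card_eq hbig
    have hY : ∀ y ∈ Y, y ∈ Z ∧ (∀ i, y ∉ S i) ∧
        (univ.filter (fun i => y ∈ forb (S i))).card ≤ m - c := by
      intro y hy
      have h1 := hYs hy
      rw [mem_sdiff] at h1
      have h2 := mem_sdiff.mp h1.1
      refine ⟨h2.1, fun i hi => h2.2 (mem_biUnion.mpr ⟨i, mem_univ i, hi⟩), ?_⟩
      by_contra hcon
      push Not at hcon
      exact h1.2 (by rw [hBdef, mem_filter]; exact ⟨h1.1, hcon⟩)
    obtain ⟨f, hfinj, hfY, hfF, _⟩ := extend m c hcardF S hcS Y hYc (fun y hy => (hY y hy).2.2)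
    refine ⟨fun i => insert (f i) (S i), ?_, ?_, ?_, ?_⟩
    · intro i x hx
      rw [mem_insert] at hx
      rcases hx with rfl | hx
      · exact (hY _ (hfY i)).1
      · exact hSZ i hx
    · intro i
      refine ⟨?_, golomb_insert (hS i).2 (hfF i)⟩
      rw [card_insert_of_notMem (fun h => hfF i (subset_forb _ h)), (hS i).1]
    · intro i k hik
      rw [disjoint_left]
      intro x hx hx'
      rw [mem_insert] at hx hx'
      rcases hx with rfl | hx
      · rcases hx' with h | hx'
        · exact hik (hfinj h)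
        · exact (hY _ (hfY i)).2.1 k hx'
      · rcases hx' with rfl | hx'
        · exact (hY _ (hfY k)).2.1 i hx
        · exact (disjoint_left.mp (hSd i k hik)) hx hx'
    · intro x hx
      obtain ⟨i, hi⟩ := hSU x hx
      exact ⟨i, mem_insert_of_mem hi⟩

lemma part_one (m : ℕ) (X : Finset ℤ) (hX : X.card = m) : Part 1 m X := by
  let e := (Finset.equivFinOfCardEq hX).symm
  refine ⟨fun i => {(e i : ℤ)}, ?_, ?_, ?_⟩
  · intro i
    refine ⟨by simp, ?_⟩
    intro a ha b hb c hc d hd hab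
    rw [mem_singleton] at ha hb
    exact (hab (by rw [ha, hb])).elim
  · intro i k hik
    rw [disjoint_singleton]
    intro h
    exact hik (e.injective (Subtype.ext h))
  · intro x
    constructor
    · intro hx
      refine ⟨e.symm ⟨x, hx⟩, ?_⟩
      simp
    · rintro ⟨i, hi⟩
      rw [mem_singleton] at hi
      rw [hi]
      exact (e i).2

lemma part_large (j m : ℕ) (X : Finset ℤ) (hX : X.card = (j + 2) * m)
    (hm : 4 * ((j + 1) ^ 3 + (j + 1) ^ 2) ≤ m) : Part (j + 2) m X := by
  obtain ⟨c, hc⟩ : ∃ c, c = (j + 1) ^ 3 + (j + 1) ^ 2 := ⟨_, rfl⟩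
  rw [← hc] at hm
  have hjc : j ^ 3 + j ^ 2 ≤ c := by
    have : (j + 1) ^ 3 + (j + 1) ^ 2 = j ^ 3 + j ^ 2 + (3 * j ^ 2 + 5 * j + 2) := by ring
    omega
  have hmul : (j + 2) * m = (j + 1) * m + m := by ring
  have hkm : (j + 1) * (2 * c) ≤ (j + 1) * m := Nat.mul_le_mul_left _ (by omega)
  obtain ⟨T, hTX, hT, hTd, _⟩ := build (2 * c) c le_rfl X ∅ (empty_subset _) (by simp) j hjc
    (by omega)
  have hX1c : (univ.biUnion T).card = (j + 1) * (2 * c) := by
    rw [card_biUnion (fun i _ k _ hik => hTd i k hik), sum_congr rfl (fun i _ => (hT i).1)]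
    simp [mul_comm]
  have hX1X : univ.biUnion T ⊆ X := by
    intro x hx
    obtain ⟨i, _, hi⟩ := mem_biUnion.mp hx
    exact hTX i hi
  have hcT : ∀ i, (forb (T i)).card ≤ c := by
    intro i
    have := forb_card (T i)
    rw [(hT i).1] at this
    omega
  set Z := X \ univ.biUnion T with hZdef
  have hZc : Z.card = (j + 1) * m + m - (j + 1) * (2 * c) := by
    rw [hZdef, card_sdiff_of_subset hX1X, hX, hX1c, hmul]
  have hUc := bad_card (2 * c) c (Fintype.card_fin _) T hcT le_rfl Z
  set U := Z.filter (fun y => 2 * c - c < (univ.filter (fun i => y ∈ forb (T i))).card) with hUdef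
  have hms : (j + 1) * (m - 2 * c) = (j + 1) * m - (j + 1) * (2 * c) := Nat.mul_sub _ _ _
  obtain ⟨S', hS'Z, hS', hS'd, hS'U⟩ := build (m - 2 * c) c (by omega) Z U (filter_subset _ _)
    (by omega) j hjc (by omega)
  have hS'c : (univ.biUnion S').card = (j + 1) * (m - 2 * c) := by
    rw [card_biUnion (fun i _ k _ hik => hS'd i k hik), sum_congr rfl (fun i _ => (hS' i).1)]
    simp [mul_comm]
  have hS's : univ.biUnion S' ⊆ Z := by
    intro x hx
    obtain ⟨i, _, hi⟩ := mem_biUnion.mp hx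
    exact hS'Z i hi
  have hcS' : ∀ i, (forb (S' i)).card ≤ c := by
    intro i
    have := forb_card (S' i)
    rw [(hS' i).1] at this
    omega
  set Y := Z \ univ.biUnion S' with hYdef
  have hYc : Y.card = m := by
    rw [hYdef, card_sdiff_of_subset hS's, hZc, hS'c, hms]
    omega
  let S : Fin (2 * c) ⊕ Fin (m - 2 * c) → Finset ℤ := Sum.elim T S'
  have hS : ∀ i, (S i).card = j + 1 ∧ Golomb (S i) := by
    rintro (i | i)
    · exact hT i
    · exact hS' i
  have hcS : ∀ i, (forb (S i)).card ≤ c := by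
    rintro (i | i)
    · exact hcT i
    · exact hcS' i
  have hTZ : ∀ i, ∀ x ∈ T i, x ∉ Z := by
    intro i x hx hxZ
    rw [hZdef, mem_sdiff] at hxZ
    exact hxZ.2 (mem_biUnion.mpr ⟨i, mem_univ i, hx⟩)
  have hSd : ∀ i k, i ≠ k → Disjoint (S i) (S k) := by
    rintro (i | i) (k | k) hik
    · exact hTd i k (fun h => hik (by rw [h]))
    · show Disjoint (T i) (S' k)
      rw [disjoint_left]
      intro x hx hx'
      exact hTZ i x hx (hS'Z k hx')
    · show Disjoint (S' i) (T k)
      rw [disjoint_left]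
      intro x hx hx'
      exact hTZ k x hx' (hS'Z i hx)
    · exact hS'd i k (fun h => hik (by rw [h]))
  have hYZ : ∀ y ∈ Y, y ∈ Z ∧ ∀ i, y ∉ S' i := by
    intro y hy
    rw [hYdef, mem_sdiff] at hy
    exact ⟨hy.1, fun i hi => hy.2 (mem_biUnion.mpr ⟨i, mem_univ i, hi⟩)⟩
  have hSX : ∀ i, ∀ x ∈ S i, x ∈ X ∧ x ∉ Y := by
    rintro (i | i) x hx
    · exact ⟨hTX i hx, fun hY => hTZ i x hx (hYZ x hY).1⟩
    · refine ⟨?_, fun hY => (hYZ x hY).2 i hx⟩
      have := hS'Z i hx
      rw [hZdef, mem_sdiff] at this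
      exact this.1
  have hScov : ∀ x ∈ X, x ∉ Y → ∃ i, x ∈ S i := by
    intro x hx hxY
    by_cases h1 : x ∈ Z
    · by_cases h2 : x ∈ univ.biUnion S'
      · obtain ⟨i, _, hi⟩ := mem_biUnion.mp h2
        exact ⟨Sum.inr i, hi⟩
      · exact (hxY (by rw [hYdef, mem_sdiff]; exact ⟨h1, h2⟩)).elim
    · by_cases h2 : x ∈ univ.biUnion T
      · obtain ⟨i, _, hi⟩ := mem_biUnion.mp h2
        exact ⟨Sum.inl i, hi⟩
      · exact (h1 (by rw [hZdef, mem_sdiff]; exact ⟨hx, h2⟩)).elim
  have hcardι : Fintype.card (Fin (2 * c) ⊕ Fin (m - 2 * c)) = m := by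
    rw [Fintype.card_sum, Fintype.card_fin, Fintype.card_fin]
    omega
  have hbad : ∀ y ∈ Y, (univ.filter (fun i => y ∈ forb (S i))).card ≤ m - c := by
    intro y hy
    have hyU : (univ.filter (fun i => y ∈ forb (T i))).card ≤ 2 * c - c := by
      by_contra hcon
      push Not at hcon
      have hyU : y ∈ U := by
        rw [hUdef, mem_filter]
        exact ⟨(hYZ y hy).1, hcon⟩
      obtain ⟨i, hi⟩ := hS'U y hyU
      exact (hYZ y hy).2 i hi
    have hsub : univ.filter (fun i => y ∈ forb (S i)) ⊆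
        (univ.filter (fun i => y ∈ forb (T i))).image Sum.inl ∪
          (univ : Finset (Fin (m - 2 * c))).image Sum.inr := by
      rintro (i | i) hi
      · rw [mem_union]
        left
        rw [mem_filter] at hi
        exact mem_image.mpr ⟨i, mem_filter.mpr ⟨mem_univ i, hi.2⟩, rfl⟩
      · rw [mem_union]
        right
        exact mem_image.mpr ⟨i, mem_univ i, rfl⟩
    have h1 := (card_le_card hsub).trans (card_union_le _ _)
    have h2 : ((univ.filter (fun i => y ∈ forb (T i))).image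
      (Sum.inl : Fin (2 * c) → Fin (2 * c) ⊕ Fin (m - 2 * c))).card ≤ _ := card_image_le
    have h3 : ((univ : Finset (Fin (m - 2 * c))).image
      (Sum.inr : Fin (m - 2 * c) → Fin (2 * c) ⊕ Fin (m - 2 * c))).card ≤ _ := card_image_le
    rw [card_univ, Fintype.card_fin] at h3
    omega
  obtain ⟨f, hfinj, hfY, hfF, himg⟩ := extend m c hcardι S hcS Y hYc hbad
  let e : Fin m ≃ Fin (2 * c) ⊕ Fin (m - 2 * c) := (Fintype.equivFinOfCardEq hcardι).symm
  refine ⟨fun i => insert (f (e i)) (S (e i)), ?_, ?_, ?_⟩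
  · intro i
    refine ⟨?_, golomb_insert (hS _).2 (hfF _)⟩
    rw [card_insert_of_notMem (fun h => hfF _ (subset_forb _ h)), (hS _).1]
  · intro i k hik
    have hne : e i ≠ e k := fun h => hik (e.injective h)
    rw [disjoint_left]
    intro x hx hx'
    rw [mem_insert] at hx hx'
    rcases hx with rfl | hx
    · rcases hx' with h | hx'
      · exact hne (hfinj h)
      · exact (hSX _ _ hx').2 (hfY _)
    · rcases hx' with rfl | hx'
      · exact (hSX _ _ hx).2 (hfY _)
      · exact (disjoint_left.mp (hSd _ _ hne)) hx hx'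
  · intro x
    constructor
    · intro hx
      by_cases hxY : x ∈ Y
      · rw [← himg] at hxY
        obtain ⟨i, _, hi⟩ := mem_image.mp hxY
        exact ⟨e.symm i, by simp [hi]⟩
      · obtain ⟨i, hi⟩ := hScov x hx hxY
        exact ⟨e.symm i, by simp [hi]⟩
    · rintro ⟨i, hi⟩
      rw [mem_insert] at hi
      rcases hi with rfl | hi
      · have := (hYZ _ (hfY (e i))).1
        rw [hZdef, mem_sdiff] at this
        exact this.1
      · exact (hSX _ _ hi).1

lemma main (J : ℕ) (hJ : 1 ≤ J) (m : ℕ) (hm : 4 * J * (J - 1) ^ 2 ≤ m) (X : Finset ℤ)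
    (hX : X.card = J * m) : Part J m X := by
  rcases Nat.lt_or_ge J 2 with h | h
  · have hJ1 : J = 1 := by omega
    subst hJ1
    exact part_one m X (by rw [hX]; ring)
  · obtain ⟨j, rfl⟩ := Nat.exists_eq_add_of_le' h
    apply part_large j m X hX
    have h1 : j + 2 - 1 = j + 1 := by omega
    rw [h1] at hm
    calc 4 * ((j + 1) ^ 3 + (j + 1) ^ 2) = 4 * (j + 2) * (j + 1) ^ 2 := by ring
      _ ≤ m := hm

lemma golomb_two {a b : ℤ} (h : a ≠ b) : Golomb {a, b} := by
  intro p hp q hq r hr s hs hne heq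
  simp only [mem_insert, mem_singleton] at hp hq hr hs
  omega

lemma golomb_three {a b c : ℤ} (hab : a < b) (hbc : b < c) (h : c ≠ 2 * b - a) :
    Golomb {a, b, c} := by
  intro p hp q hq r hr s hs hne heq
  simp only [mem_insert, mem_singleton] at hp hq hr hs
  rcases hp with rfl | rfl | rfl <;> rcases hq with rfl | rfl | rfl <;>
    rcases hr with rfl | rfl | rfl <;> rcases hs with rfl | rfl | rfl <;> omega

/-- Splittings propagate from one size to all larger sizes. -/
lemma grow (J m0 : ℕ) (hm0 : 1 ≤ m0) (h0 : ∀ X : Finset ℤ, X.card = J * m0 → Part J m0 X) :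
    ∀ m, m0 ≤ m → ∀ X : Finset ℤ, X.card = J * m → Part J m X := by
  intro m hm
  induction m, hm using Nat.le_induction with
  | base => exact h0
  | succ m hm ih =>
    intro X hX
    have h1 : J * m0 ≤ X.card := by
      rw [hX]
      exact Nat.mul_le_mul_left J (by omega)
    obtain ⟨X', hX'X, hX'c⟩ := Finset.exists_subset_card_eq h1
    obtain ⟨T', hT', hT'd, hT'm⟩ := h0 X' hX'c
    obtain ⟨T0, hT0⟩ : ∃ T0, T0 = T' ⟨0, hm0⟩ := ⟨_, rfl⟩
    have hT0X : T0 ⊆ X := by
      intro x hx
      exact hX'X ((hT'm x).mpr ⟨_, hT0 ▸ hx⟩)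
    have hT0c : T0.card = J ∧ Golomb T0 := hT0 ▸ hT' _
    have h2 : (X \ T0).card = J * m := by
      rw [card_sdiff_of_subset hT0X, hX, hT0c.1]
      have : J * (m + 1) = J * m + J := by ring
      omega
    obtain ⟨T, hT, hTd, hTm⟩ := ih _ h2
    have hd0 : ∀ i, Disjoint T0 (T i) := by
      intro i
      rw [disjoint_left]
      intro x hx hxi
      have := (hTm x).mpr ⟨i, hxi⟩
      rw [mem_sdiff] at this
      exact this.2 hx
    refine ⟨Fin.cons T0 T, ?_, ?_, ?_⟩
    · intro i
      refine Fin.cases ?_ (fun i => ?_) i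
      · rw [Fin.cons_zero]
        exact hT0c
      · rw [Fin.cons_succ]
        exact hT i
    · intro i j
      refine Fin.cases ?_ (fun i => ?_) i
      · refine Fin.cases ?_ (fun j => ?_) j
        · intro h
          exact (h rfl).elim
        · intro _
          rw [Fin.cons_zero, Fin.cons_succ]
          exact hd0 j
      · refine Fin.cases ?_ (fun j => ?_) j
        · intro _
          rw [Fin.cons_zero, Fin.cons_succ]
          exact (hd0 i).symm
        · intro h
          rw [Fin.cons_succ, Fin.cons_succ]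
          exact hTd i j (fun h' => h (by rw [h']))
    · intro x
      constructor
      · intro hx
        by_cases h : x ∈ T0
        · exact ⟨0, by rw [Fin.cons_zero]; exact h⟩
        · obtain ⟨i, hi⟩ := (hTm x).mp (mem_sdiff.mpr ⟨hx, h⟩)
          exact ⟨i.succ, by rw [Fin.cons_succ]; exact hi⟩
      · rintro ⟨i, hi⟩
        revert hi
        refine Fin.cases ?_ (fun i => ?_) i
        · rw [Fin.cons_zero]
          intro h
          exact hT0X h
        · rw [Fin.cons_succ]
          intro h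
          exact (mem_sdiff.mp ((hTm x).mpr ⟨i, h⟩)).1

lemma part_two (m : ℕ) (hm : 1 ≤ m) (X : Finset ℤ) (hX : X.card = 2 * m) : Part 2 m X := by
  refine grow 2 1 le_rfl ?_ m hm X hX
  intro X hX
  obtain ⟨a, b, hab, rfl⟩ := card_eq_two.mp (by rw [hX] : X.card = 2)
  refine ⟨fun _ => {a, b}, fun _ => ⟨card_pair hab, golomb_two hab⟩, ?_, ?_⟩
  · intro i j hij
    exact (hij (Subsingleton.elim i j)).elim
  · intro x
    exact ⟨fun h => ⟨0, h⟩, fun ⟨_, h⟩ => h⟩

lemma part_six_aux (X : Finset ℤ) (x : Fin 6 → ℤ) (hx : ∀ y, y ∈ X ↔ ∃ i, x i = y)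
    (A B : Finset ℤ) (hA : A.card = 3) (hB : B.card = 3) (hAG : Golomb A) (hBG : Golomb B)
    (hAB : Disjoint A B) (hX : ∀ y, (∃ i, x i = y) ↔ y ∈ A ∨ y ∈ B) : Part 3 2 X := by
  refine ⟨![A, B], ?_, ?_, ?_⟩
  · intro i
    fin_cases i
    · exact ⟨hA, hAG⟩
    · exact ⟨hB, hBG⟩
  · intro i j hij
    fin_cases i <;> fin_cases j
    · exact (hij rfl).elim
    · exact hAB
    · exact hAB.symm
    · exact (hij rfl).elim
  · intro y
    rw [hx, hX]
    constructor
    · rintro (h | h)
      · exact ⟨0, h⟩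
      · exact ⟨1, h⟩
    · rintro ⟨i, hi⟩
      fin_cases i
      · exact Or.inl hi
      · exact Or.inr hi

lemma part_six (X : Finset ℤ) (hX : X.card = 6) : Part 3 2 X := by
  let x : Fin 6 → ℤ := X.orderEmbOfFin hX
  have hmono : ∀ i j : Fin 6, i < j → x i < x j := fun i j h =>
    (X.orderEmbOfFin hX).strictMono h
  have hx : ∀ y, y ∈ X ↔ ∃ i, x i = y := by
    intro y
    have := Finset.range_orderEmbOfFin X hX
    rw [← mem_coe, ← this]
    rfl
  have h01 := hmono 0 1 (by decide)
  have h12 := hmono 1 2 (by decide)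
  have h23 := hmono 2 3 (by decide)
  have h34 := hmono 3 4 (by decide)
  have h45 := hmono 4 5 (by decide)
  have key : (x 2 ≠ 2 * x 1 - x 0 ∧ x 5 ≠ 2 * x 4 - x 3) ∨
      (x 3 ≠ 2 * x 1 - x 0 ∧ x 5 ≠ 2 * x 4 - x 2) ∨
      (x 4 ≠ 2 * x 1 - x 0 ∧ x 5 ≠ 2 * x 3 - x 2) ∨
      (x 5 ≠ 2 * x 1 - x 0 ∧ x 4 ≠ 2 * x 3 - x 2) := by omega
  have hcov : ∀ y, (∃ i, x i = y) ↔
      (y = x 0 ∨ y = x 1 ∨ y = x 2 ∨ y = x 3 ∨ y = x 4 ∨ y = x 5) := by
    intro y
    constructor
    · rintro ⟨i, rfl⟩
      fin_cases i <;> simp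
    · rintro (rfl | rfl | rfl | rfl | rfl | rfl)
      exacts [⟨0, rfl⟩, ⟨1, rfl⟩, ⟨2, rfl⟩, ⟨3, rfl⟩, ⟨4, rfl⟩, ⟨5, rfl⟩]
  have hc3 : ∀ a b c : ℤ, a < b → b < c → ({a, b, c} : Finset ℤ).card = 3 := by
    intro a b c hab hbc
    rw [card_eq_three]
    exact ⟨a, b, c, hab.ne, (hab.trans hbc).ne, hbc.ne, rfl⟩
  rcases key with ⟨h1, h2⟩ | ⟨h1, h2⟩ | ⟨h1, h2⟩ | ⟨h1, h2⟩
  · refine part_six_aux X x hx {x 0, x 1, x 2} {x 3, x 4, x 5} (hc3 _ _ _ (by omega) (by omega))
      (hc3 _ _ _ (by omega) (by omega)) (golomb_three (by omega) (by omega) h1)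
      (golomb_three (by omega) (by omega) h2) ?_ ?_
    · rw [disjoint_left]
      intro y hy hy'
      simp only [mem_insert, mem_singleton] at hy hy'
      omega
    · intro y
      rw [hcov]
      simp only [mem_insert, mem_singleton]
      tauto
  · refine part_six_aux X x hx {x 0, x 1, x 3} {x 2, x 4, x 5} (hc3 _ _ _ (by omega) (by omega))
      (hc3 _ _ _ (by omega) (by omega)) (golomb_three (by omega) (by omega) h1)
      (golomb_three (by omega) (by omega) h2) ?_ ?_
    · rw [disjoint_left]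
      intro y hy hy'
      simp only [mem_insert, mem_singleton] at hy hy'
      omega
    · intro y
      rw [hcov]
      simp only [mem_insert, mem_singleton]
      tauto
  · refine part_six_aux X x hx {x 0, x 1, x 4} {x 2, x 3, x 5} (hc3 _ _ _ (by omega) (by omega))
      (hc3 _ _ _ (by omega) (by omega)) (golomb_three (by omega) (by omega) h1)
      (golomb_three (by omega) (by omega) h2) ?_ ?_
    · rw [disjoint_left]
      intro y hy hy'
      simp only [mem_insert, mem_singleton] at hy hy'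
      omega
    · intro y
      rw [hcov]
      simp only [mem_insert, mem_singleton]
      tauto
  · refine part_six_aux X x hx {x 0, x 1, x 5} {x 2, x 3, x 4} (hc3 _ _ _ (by omega) (by omega))
      (hc3 _ _ _ (by omega) (by omega)) (golomb_three (by omega) (by omega) h1)
      (golomb_three (by omega) (by omega) h2) ?_ ?_
    · rw [disjoint_left]
      intro y hy hy'
      simp only [mem_insert, mem_singleton] at hy hy'
      omega
    · intro y
      rw [hcov]
      simp only [mem_insert, mem_singleton]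
      tauto

lemma part_three (m : ℕ) (hm : 2 ≤ m) (X : Finset ℤ) (hX : X.card = 3 * m) : Part 3 m X :=
  grow 3 2 (by norm_num) (fun X hX => part_six X (by rw [hX])) m hm X hX

lemma H_one_three : H 1 3 ≠ 3 := by
  intro h
  have hne : {n | ∃ F, DGR 1 3 n F}.Nonempty := by
    apply Nat.nonempty_of_pos_sInf
    unfold H at h
    omega
  obtain ⟨F, hF⟩ := Nat.sInf_mem hne
  have hF' : DGR 1 3 3 F := by
    unfold H at h
    rw [h] at hF
    exact hF
  obtain ⟨A, hA⟩ := card_eq_one.mp hF'.1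
  obtain ⟨hAc, hAG, hAs⟩ := hF'.2.1 A (by rw [hA]; exact mem_singleton_self A)
  have hAI : A = Finset.Icc 1 ((3 : ℕ) : ℤ) := by
    apply eq_of_subset_of_card_le hAs
    rw [hAc, Int.card_Icc]
    simp
  have h1 : (1 : ℤ) ∈ A := by rw [hAI]; simp
  have h2 : (2 : ℤ) ∈ A := by rw [hAI]; simp
  have h3 : (3 : ℤ) ∈ A := by rw [hAI]; simp
  have := hAG 2 h2 1 h1 3 h3 2 h2 (by norm_num) (by norm_num)
  omega

/-- Let `I, J ≥ 1`, and suppose that `I ≥ 4 J (J - 1) ^ 2`, or that `J ≤ 3` and `H(I, J) = I J`.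
Then every set of `I * J` integers is the disjoint union of `I` Golomb rulers with `J` marks, and
every `J`-mark Golomb ruler in `{1, …, (I + 1) J}` is a member of a regular
`(I + 1, J, (I + 1) J)`-DGR. -/
theorem result (I J : ℕ) (hI : 1 ≤ I) (hJ : 1 ≤ J)
    (h : 4 * J * (J - 1) ^ 2 ≤ I ∨ (J ≤ 3 ∧ H I J = I * J)) :
    (∀ X : Finset ℤ, X.card = I * J →
      ∃ F : Finset (Finset ℤ), F.card = I ∧ (∀ A ∈ F, A.card = J ∧ Golomb A) ∧
        (∀ A ∈ F, ∀ B ∈ F, A ≠ B → Disjoint A B) ∧ ∀ x, x ∈ X ↔ ∃ A ∈ F, x ∈ A) ∧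
    (∀ A₁ : Finset ℤ, A₁.card = J → Golomb A₁ → A₁ ⊆ Finset.Icc 1 (((I + 1) * J : ℕ) : ℤ) →
      ∃ F : Finset (Finset ℤ), DGR (I + 1) J ((I + 1) * J) F ∧ A₁ ∈ F) := by
  have hpart : ∀ X : Finset ℤ, X.card = J * I → Part J I X := by
    intro X hX
    rcases h with h | ⟨h3, hH⟩
    · exact main J hJ I h X hX
    · have hJ' : J = 1 ∨ J = 2 ∨ J = 3 := by omega
      rcases hJ' with rfl | rfl | rfl
      · exact part_one I X (by omega)
      · exact part_two I hI X hX
      · refine part_three I ?_ X hX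
        by_contra hcon
        have hI1 : I = 1 := by omega
        subst hI1
        exact H_one_three (by omega)
  have key : ∀ X : Finset ℤ, X.card = I * J →
      ∃ F : Finset (Finset ℤ), F.card = I ∧ (∀ A ∈ F, A.card = J ∧ Golomb A) ∧
        (∀ A ∈ F, ∀ B ∈ F, A ≠ B → Disjoint A B) ∧ ∀ x, x ∈ X ↔ ∃ A ∈ F, x ∈ A := by
    intro X hX
    obtain ⟨T, hT, hTd, hTm⟩ := hpart X (by rw [hX]; ring)
    have hinj : Function.Injective T := by
      intro i j hij
      by_contra hne
      have h1 := hTd i j hne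
      rw [hij, disjoint_self_iff_empty] at h1
      have h2 := (hT j).1
      rw [h1, card_empty] at h2
      omega
    refine ⟨univ.image T, ?_, ?_, ?_, ?_⟩
    · rw [card_image_of_injective _ hinj, card_univ, Fintype.card_fin]
    · intro A hA
      obtain ⟨i, _, rfl⟩ := mem_image.mp hA
      exact hT i
    · intro A hA B hB hAB
      obtain ⟨i, _, rfl⟩ := mem_image.mp hA
      obtain ⟨j, _, rfl⟩ := mem_image.mp hB
      exact hTd i j (fun h => hAB (by rw [h]))
    · intro x
      rw [hTm]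
      constructor
      · rintro ⟨i, hi⟩
        exact ⟨T i, mem_image.mpr ⟨i, mem_univ i, rfl⟩, hi⟩
      · rintro ⟨A, hA, hx⟩
        obtain ⟨i, _, rfl⟩ := mem_image.mp hA
        exact ⟨i, hx⟩
  refine ⟨key, ?_⟩
  intro A₁ hA₁c hA₁G hA₁s
  have hcard : (Finset.Icc 1 (((I + 1) * J : ℕ) : ℤ) \ A₁).card = I * J := by
    rw [card_sdiff_of_subset hA₁s, hA₁c, Int.card_Icc]
    have : ((((I + 1) * J : ℕ) : ℤ) + 1 - 1).toNat = (I + 1) * J := by
      rw [add_sub_cancel_right, Int.toNat_natCast]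
    rw [this]
    have h2 : (I + 1) * J = I * J + J := by ring
    omega
  obtain ⟨F, hFc, hF, hFd, hFm⟩ := key _ hcard
  have hdis : ∀ B ∈ F, Disjoint A₁ B := by
    intro B hB
    rw [disjoint_left]
    intro x hx hxB
    have := (hFm x).mpr ⟨B, hB, hxB⟩
    rw [mem_sdiff] at this
    exact this.2 hx
  have hnot : A₁ ∉ F := by
    intro h
    have h1 := hdis A₁ h
    rw [disjoint_self_iff_empty] at h1
    rw [h1, card_empty] at hA₁c
    omega
  refine ⟨insert A₁ F, ⟨?_, ?_, ?_⟩, mem_insert_self _ _⟩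
  · rw [card_insert_of_notMem hnot, hFc]
  · intro A hA
    rw [mem_insert] at hA
    rcases hA with rfl | hA
    · exact ⟨hA₁c, hA₁G, hA₁s⟩
    · refine ⟨(hF A hA).1, (hF A hA).2, ?_⟩
      intro x hx
      have := (hFm x).mpr ⟨A, hA, hx⟩
      exact (mem_sdiff.mp this).1
  · intro A hA B hB hAB
    rw [mem_insert] at hA hB
    rcases hA with rfl | hA
    · rcases hB with rfl | hB
      · exact (hAB rfl).elim
      · exact hdis B hB
    · rcases hB with rfl | hB
      · exact (hdis A hA).symm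
      · exact hFd A hA B hB hAB

end Pool.Agent.Results.MP_61bf50_co.LargeI
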